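import Pool.Agent.H41.CUBE.TStmts

set_option autoImplicit false

open Finset MvPolynomial Pool.CM

namespace Pool.CUBE

namespace LIFT

variable {n : ℕ} {A B : Type} [CommRing A] [CommRing B]

theorem mem_Rel_sum (P g : Poly n A) (hg : g ∈ Rel P) :
    ∃ h : Fin (n + 1) → Poly n A, g = ∑ k, Dop P k (h k) := by
  classical
  unfold Rel at hg
  refine Submodule.iSup_induction (fun i => LinearMap.range (Dop P i))
    (motive := fun g => ∃ h : Fin (n + 1) → Poly n A, g = ∑ k, Dop P k (h k)) hg ?_ ?_ ?_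
  · rintro i x ⟨y, rfl⟩
    refine ⟨Pi.single i y, ?_⟩
    rw [Finset.sum_eq_single i]
    · rw [Pi.single_eq_same]
    · intro k _ hk
      rw [Pi.single_eq_of_ne hk, map_zero]
    · intro h
      exact absurd (mem_univ i) h
  · exact ⟨0, by simp⟩
  · rintro x y ⟨h, rfl⟩ ⟨h', rfl⟩
    exact ⟨h + h', by simp [Finset.sum_add_distrib]⟩

theorem map_ez (f : A →+* B) (k : Fin (n + 1)) (g : Poly n A) :
    map f (ez k g) = ez k (map f g) := by
  change map f (X k * pderiv k g) = X k * pderiv k (map f g)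
  rw [map_mul, map_X, pderiv_map]

theorem map_Dop (f : A →+* B) (P g : Poly n A) (k : Fin (n + 1)) :
    map f (Dop P k g) = Dop (map f P) k (map f g) := by
  rw [Dop_apply, Dop_apply, map_sub, map_add, map_mul, map_ez, map_ez]

end LIFT

theorem LIFT_proof : LIFTStmt := by
  intro X E _ _ A hA i n M P hP N _ co hco hdv P' hP' g g' hg hrel
  obtain ⟨Pt, hPt1, hPt2⟩ := hP'
  obtain ⟨gt, hgt1, hgt2⟩ := hg
  obtain ⟨h', hh'⟩ := LIFT.mem_Rel_sum P' g' hrel
  have hs : Function.Surjective (map (σ := Fin (n + 1))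
      (Ideal.Quotient.mk (Ideal.span {((X.p i : ℕ) : A.O i) ^ M}))) :=
    MvPolynomial.map_surjective _ Ideal.Quotient.mk_surjective
  choose ht hht using fun k => hs (h' k)
  have hd : map (Ideal.Quotient.mk (Ideal.span {((X.p i : ℕ) : A.O i) ^ M}))
      (gt - ∑ k, Dop Pt k (ht k)) = 0 := by
    rw [map_sub, map_sum, hgt2, hh', sub_eq_zero]
    refine Finset.sum_congr rfl fun k _ => ?_
    rw [LIFT.map_Dop, hPt2, hht]
  have he : map (A.O i).subtype (gt - ∑ k, Dop Pt k (ht k)) =
      g - ∑ k, Dop P k (map (A.O i).subtype (ht k)) := by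
    rw [map_sub, map_sum, hgt1]
    congr 1
    refine Finset.sum_congr rfl fun k _ => ?_
    rw [LIFT.map_Dop, hPt1]
  have hc : CDv A i M (g - ∑ k, Dop P k (map (A.O i).subtype (ht k))) := by
    intro a
    rw [← he, coeff_map]
    have h1 : Ideal.Quotient.mk (Ideal.span {((X.p i : ℕ) : A.O i) ^ M})
        (coeff a (gt - ∑ k, Dop Pt k (ht k))) = 0 := by
      rw [← coeff_map, hd, coeff_zero]
    rw [Ideal.Quotient.eq_zero_iff_mem, Ideal.mem_span_singleton] at h1
    obtain ⟨y, hy⟩ := h1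
    refine ⟨y, y.2, ?_⟩
    rw [hy]
    simp
  intro j
  have h2 := hdv _ hc j
  rw [map_sub, map_sum] at h2
  simp only [hco, Finset.sum_const_zero, sub_zero] at h2
  exact h2

end Pool.CUBE
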