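import Pool.Agent.H41.CUBE.TStmts
import Pool.Agent.H19.CM.VALU

set_option autoImplicit false

open Finset MvPolynomial Pool.CM

namespace Pool.CUBE

namespace MAL

/-! ### commutation over a domain -/

section
variable {R : Type} [CommRing R] [IsDomain R] {N : Type} [Fintype N] [DecidableEq N]

theorem det_unit (p : R) (hu : ∀ y : R, IsUnit (1 + p * y)) (Y : Matrix N N R) :
    IsUnit (1 + p • Y).det := by
  have h1 : (Ideal.Quotient.mk (Ideal.span {p})) (1 + p • Y).det = 1 := by
    rw [RingHom.map_det]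
    have : (Ideal.Quotient.mk (Ideal.span {p})).mapMatrix (1 + p • Y) = 1 := by
      rw [map_add, map_one]
      have h2 : (Ideal.Quotient.mk (Ideal.span {p})).mapMatrix (p • Y) = 0 := by
        ext a b
        rw [RingHom.mapMatrix_apply, Matrix.map_apply, Matrix.smul_apply, smul_eq_mul, map_mul,
          Ideal.Quotient.eq_zero_iff_mem.mpr (Ideal.mem_span_singleton_self p), zero_mul,
          Matrix.zero_apply]
      rw [h2, add_zero]
    rw [this, Matrix.det_one]
  have h2 : (1 + p • Y).det - 1 ∈ Ideal.span {p} := by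
    rw [← Ideal.Quotient.eq_zero_iff_mem, map_sub, h1, map_one, sub_self]
  obtain ⟨y, hy⟩ := Ideal.mem_span_singleton.mp h2
  have h3 : (1 + p • Y).det = 1 + p * y := by rw [← hy]; ring
  rw [h3]
  exact hu y

theorem swap0 (c : R) (hc : c ≠ 0) (B C : Matrix N N R) (h : B * C = c • 1) :
    C * B = c • 1 := by
  have h1 : B * (C * B - c • 1) = 0 := by
    rw [mul_sub, ← mul_assoc, h]
    simp
  have hdet : B.det ≠ 0 := by
    intro h0
    have h2 := congrArg Matrix.det h
    rw [Matrix.det_mul, h0, zero_mul, Matrix.det_smul, Matrix.det_one, mul_one] at h2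
    exact pow_ne_zero _ hc h2.symm
  have h2 : B.det • (C * B - c • 1) = 0 := by
    have h3 : B.adjugate * (B * (C * B - c • 1)) = 0 := by rw [h1, mul_zero]
    rw [← mul_assoc, Matrix.adjugate_mul] at h3
    simpa using h3
  have h3 := (smul_eq_zero.mp h2).resolve_left hdet
  exact sub_eq_zero.mp h3

theorem swap (p : R) (hp : p ≠ 0) (hu : ∀ y : R, IsUnit (1 + p * y)) (n M : ℕ) (hM : 1 ≤ M)
    (B C X : Matrix N N R) (h : B * C = p ^ n • 1 + p ^ (M + 2 * n) • X) :
    ∃ Y : Matrix N N R, C * B = p ^ n • 1 + p ^ (M + n) • Y := by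
  obtain ⟨k, hk⟩ : ∃ k, M + n = k + 1 := ⟨M + n - 1, by omega⟩
  set U : Matrix N N R := 1 + p • (p ^ k • X) with hU
  have hUu : IsUnit U := by
    rw [Matrix.isUnit_iff_isUnit_det]
    exact det_unit p hu _
  have h1 : B * C = p ^ n • U := by
    rw [h, hU, smul_add, smul_smul, smul_smul]
    congr 2
    rw [← pow_succ, ← pow_add]
    congr 1
    omega
  obtain ⟨V, hV⟩ := hUu
  have h2 : B * (C * ((V⁻¹ : (Matrix N N R)ˣ) : Matrix N N R)) = p ^ n • 1 := by
    rw [← mul_assoc, h1, ← hV, smul_mul_assoc, Units.mul_inv]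
  have h3 := swap0 (p ^ n) (pow_ne_zero _ hp) B _ h2
  refine ⟨C * ((V⁻¹ : (Matrix N N R)ˣ) : Matrix N N R) * X * B, ?_⟩
  have h4 : C * B = C * ((V⁻¹ : (Matrix N N R)ˣ) : Matrix N N R) * U * B := by
    rw [mul_assoc C, ← hV, Units.inv_mul, mul_one]
  have h5 : U = 1 + p ^ (M + n) • X := by
    rw [hU, smul_smul, ← pow_succ', hk]
  calc C * B = C * ((V⁻¹ : (Matrix N N R)ˣ) : Matrix N N R) * U * B := h4
    _ = C * ((V⁻¹ : (Matrix N N R)ˣ) : Matrix N N R) * (1 + p ^ (M + n) • X) * B := by rw [← h5]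
    _ = C * ((V⁻¹ : (Matrix N N R)ˣ) : Matrix N N R) * B +
        p ^ (M + n) • (C * ((V⁻¹ : (Matrix N N R)ˣ) : Matrix N N R) * X * B) := by
      rw [mul_add, mul_one, add_mul, mul_smul_comm, smul_mul_assoc]
    _ = _ := by rw [h3]

end

/-! ### divisible matrices -/

section
variable {X : Idx} {E : Type} [Field E] (A : PF X E) (i : X.I)

theorem dv_add {M : ℕ} {x y : E} (hx : A.Dv i M x) (hy : A.Dv i M y) : A.Dv i M (x + y) := by
  obtain ⟨a, ha, rfl⟩ := hx
  obtain ⟨b, hb, rfl⟩ := hy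
  exact ⟨a + b, (A.O i).add_mem ha hb, by ring⟩

theorem dv_zero {M : ℕ} : A.Dv i M 0 := ⟨0, (A.O i).zero_mem, by ring⟩

theorem dv_neg {M : ℕ} {x : E} (hx : A.Dv i M x) : A.Dv i M (-x) := by
  obtain ⟨a, ha, rfl⟩ := hx
  exact ⟨-a, (A.O i).neg_mem ha, by ring⟩

theorem dv_mul {M : ℕ} {x y : E} (hx : A.Dv i M x) (hy : y ∈ A.O i) : A.Dv i M (y * x) := by
  obtain ⟨a, ha, rfl⟩ := hx
  exact ⟨y * a, (A.O i).mul_mem hy ha, by ring⟩

theorem dv_sum {ι : Type*} {M : ℕ} (s : Finset ι) (f : ι → E) (h : ∀ a ∈ s, A.Dv i M (f a)) :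
    A.Dv i M (∑ a ∈ s, f a) := by
  classical
  induction s using Finset.induction_on with
  | empty => simpa using dv_zero A i
  | insert a s ha ih =>
    rw [Finset.sum_insert ha]
    exact dv_add A i (h a (mem_insert_self a s)) (ih fun b hb => h b (mem_insert_of_mem hb))

theorem dv_mono {M M' : ℕ} (h : M ≤ M') {x : E} (hx : A.Dv i M' x) : A.Dv i M x := by
  obtain ⟨a, ha, rfl⟩ := hx
  refine ⟨(X.p i : E) ^ (M' - M) * a, (A.O i).mul_mem ((A.O i).pow_mem (natCast_mem _ _) _) ha, ?_⟩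
  rw [← mul_assoc, ← pow_add]
  congr 2
  omega

variable {A i}

theorem dv_cancel (hA : A.Ax) {M n : ℕ} {x : E} (h : A.Dv i (M + n) ((X.p i : E) ^ n * x)) :
    A.Dv i M x := by
  obtain ⟨a, ha, e⟩ := h
  refine ⟨a, ha, ?_⟩
  have hp := pow_ne_zero n (VALU.p_ne hA i)
  apply mul_left_cancel₀ hp
  rw [e, pow_add]
  ring

theorem dv_D (hA : A.Ax) {M : ℕ} (j : A.J) {x : E} (hx : A.Dv i M x) :
    A.Dv i M (A.D j x) := by
  obtain ⟨a, ha, rfl⟩ := hx
  refine ⟨A.D j a, hA.D_O i j a ha, ?_⟩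
  have h0 : A.D j ((X.p i : E) ^ M) = 0 := by
    rw [← Nat.cast_pow, ← Int.cast_natCast]
    exact Derivation.map_intCast _ _
  rw [Derivation.leibniz, h0]
  simp

/-- all entries divisible by `p ^ M` -/
def MD {N K : Type} (A : PF X E) (i : X.I) (M : ℕ) (Y : Matrix N K E) : Prop :=
  ∀ a b, A.Dv i M (Y a b)

/-- integral entries -/
def MI {N K : Type} (A : PF X E) (i : X.I) (Y : Matrix N K E) : Prop := ∀ a b, Y a b ∈ A.O i

variable {N K L : Type} [Fintype K]

theorem MD.add {M : ℕ} {Y Z : Matrix N K E} (hY : MD A i M Y) (hZ : MD A i M Z) :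
    MD A i M (Y + Z) := fun a b => dv_add A i (hY a b) (hZ a b)

theorem MD.neg {M : ℕ} {Y : Matrix N K E} (hY : MD A i M Y) : MD A i M (-Y) :=
  fun a b => dv_neg A i (hY a b)

theorem MD.sub {M : ℕ} {Y Z : Matrix N K E} (hY : MD A i M Y) (hZ : MD A i M Z) :
    MD A i M (Y - Z) := by
  rw [sub_eq_add_neg]
  exact hY.add hZ.neg

theorem MD.mul_left {M : ℕ} {Y : Matrix N K E} {Z : Matrix K L E} (hY : MI A i Y)
    (hZ : MD A i M Z) : MD A i M (Y * Z) := by
  intro a b
  rw [Matrix.mul_apply]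
  exact dv_sum A i _ _ fun c _ => dv_mul A i (hZ c b) (hY a c)

theorem MD.mul_right {M : ℕ} {Y : Matrix N K E} {Z : Matrix K L E} (hY : MD A i M Y)
    (hZ : MI A i Z) : MD A i M (Y * Z) := by
  intro a b
  rw [Matrix.mul_apply]
  exact dv_sum A i _ _ fun c _ => by
    rw [mul_comm]
    exact dv_mul A i (hY a c) (hZ c b)

theorem MD.smul {M : ℕ} {Y : Matrix N K E} {x : E} (hY : MD A i M Y) (hx : x ∈ A.O i) :
    MD A i M (x • Y) := fun a b => dv_mul A i (hY a b) hx

theorem MI.mul {Y : Matrix N K E} {Z : Matrix K L E} (hY : MI A i Y) (hZ : MI A i Z) :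
    MI A i (Y * Z) := by
  intro a b
  rw [Matrix.mul_apply]
  exact (A.O i).sum_mem fun c _ => (A.O i).mul_mem (hY a c) (hZ c b)

theorem MI.add {Y Z : Matrix N K E} (hY : MI A i Y) (hZ : MI A i Z) : MI A i (Y + Z) :=
  fun a b => (A.O i).add_mem (hY a b) (hZ a b)

theorem MI.sub {Y Z : Matrix N K E} (hY : MI A i Y) (hZ : MI A i Z) : MI A i (Y - Z) :=
  fun a b => (A.O i).sub_mem (hY a b) (hZ a b)

theorem MI.smul {Y : Matrix N K E} {x : E} (hY : MI A i Y) (hx : x ∈ A.O i) :
    MI A i (x • Y) := fun a b => (A.O i).mul_mem hx (hY a b)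

theorem unit_one_add (hA : A.Ax) (y : A.O i) :
    IsUnit (1 + ((X.p i : ℕ) : A.O i) * y) := by
  have h := VALU.five hA i 1 ((X.p i : E) ^ 1 * (y : E))
    ⟨one_ne_zero, (A.O i).one_mem, by rw [inv_one]; exact (A.O i).one_mem⟩ ⟨y, y.2, rfl⟩
  rw [pow_one] at h
  obtain ⟨h0, -, h2⟩ := h
  refine IsUnit.of_mul_eq_one ⟨_, h2⟩ ?_
  apply Subtype.ext
  push_cast
  exact mul_inv_cancel₀ h0

theorem swapE [Fintype N] [DecidableEq N] (hA : A.Ax) (n M : ℕ) (hM : 1 ≤ M) (B C : Matrix N N E) (hB : MI A i B)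
    (hC : MI A i C) (h : MD A i (M + 2 * n) (B * C - (X.p i : E) ^ n • 1)) :
    MD A i (M + n) (C * B - (X.p i : E) ^ n • 1) := by
  choose Y hY hY' using h
  let B' : Matrix N N (A.O i) := Matrix.of fun a b => ⟨B a b, hB a b⟩
  let C' : Matrix N N (A.O i) := Matrix.of fun a b => ⟨C a b, hC a b⟩
  let Y' : Matrix N N (A.O i) := Matrix.of fun a b => ⟨Y a b, hY a b⟩
  have hp : ((X.p i : ℕ) : A.O i) ≠ 0 := by
    intro h0
    apply VALU.p_ne hA i
    have := congrArg (fun x : A.O i => (x : E)) h0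
    simpa using this
  have h1 : B' * C' = ((X.p i : ℕ) : A.O i) ^ n • 1 +
      ((X.p i : ℕ) : A.O i) ^ (M + 2 * n) • Y' := by
    ext a b
    have h2 := hY' a b
    simp only [Matrix.sub_apply, Matrix.smul_apply, smul_eq_mul, Matrix.mul_apply] at h2
    simp only [Matrix.add_apply, Matrix.smul_apply, smul_eq_mul, Matrix.mul_apply, B', C', Y',
      Matrix.of_apply]
    push_cast
    have h3 : (((1 : Matrix N N (A.O i)) a b : A.O i) : E) = (1 : Matrix N N E) a b := by
      rw [Matrix.one_apply, Matrix.one_apply]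
      split_ifs <;> simp
    rw [h3]
    linear_combination h2
  obtain ⟨Z, hZ⟩ := swap ((X.p i : ℕ) : A.O i) hp (unit_one_add hA) n M hM B' C' Y' h1
  intro a b
  refine ⟨Z a b, (Z a b).2, ?_⟩
  have h2 := congrArg (fun x : A.O i => (x : E)) (congrFun (congrFun hZ a) b)
  simp only [Matrix.add_apply, Matrix.smul_apply, smul_eq_mul, Matrix.mul_apply, B', C',
    Matrix.of_apply] at h2
  push_cast at h2
  have h3 : (((1 : Matrix N N (A.O i)) a b : A.O i) : E) = (1 : Matrix N N E) a b := by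
    rw [Matrix.one_apply, Matrix.one_apply]
    split_ifs <;> simp
  rw [h3] at h2
  simp only [Matrix.sub_apply, Matrix.smul_apply, smul_eq_mul, Matrix.mul_apply]
  linear_combination h2

end

end MAL

theorem MAL_proof : MALStmt := by
  intro X E _ _ A hA i n M hM N _ _ B Am G x hB hAm hG hx hBA hhor hvec
  have hpO : (X.p i : E) ∈ A.O i := natCast_mem _ _
  have e0 : MAL.MD A i (M + 2 * n) (B * Am - (X.p i : E) ^ n • 1) := by
    intro a b
    have := hBA a b
    simpa [Matrix.sub_apply, Matrix.one_apply] using this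
  have e4 := MAL.swapE hA n M hM B Am hB hAm e0
  refine ⟨fun a b => ?_, fun j => ?_, ?_⟩
  · have := MAL.dv_mono A i (show M ≤ M + n by omega) (e4 a b)
    simpa [Matrix.sub_apply, Matrix.one_apply] using this
  · set F : Matrix N N E := (G j).map (A.phi i) with hF
    have hFI : MAL.MI A i F := fun a b => hA.phi_O i _ (hG j a b)
    set dB : Matrix N N E := B.map (A.D j) with hdB
    set dA : Matrix N N E := Am.map (A.D j) with hdA
    have hdAI : MAL.MI A i dA := fun a b => hA.D_O i j _ (hAm a b)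
    have e2 : MAL.MD A i (M + 2 * n) (B * G j - dB - (X.p i : E) • (F * B)) := by
      intro a b
      exact hhor j a b
    have e1 : MAL.MD A i (M + 2 * n) (dB * Am + B * dA) := by
      intro a b
      have h1 := MAL.dv_D hA j (e0 a b)
      have h2 : A.D j ((B * Am - (X.p i : E) ^ n • (1 : Matrix N N E)) a b) =
          (dB * Am + B * dA) a b := by
        simp only [Matrix.sub_apply, Matrix.smul_apply, smul_eq_mul, Matrix.mul_apply,
          Matrix.add_apply]
        have h3 : A.D j ((X.p i : E) ^ n * (1 : Matrix N N E) a b) = 0 := by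
          rw [Matrix.one_apply]
          split_ifs
          · rw [mul_one, ← Nat.cast_pow, ← Int.cast_natCast]
            exact Derivation.map_intCast _ _
          · rw [mul_zero, map_zero]
        rw [map_sub, h3, sub_zero, map_sum, ← Finset.sum_add_distrib]
        refine Finset.sum_congr rfl fun c _ => ?_
        rw [Derivation.leibniz, hdB, hdA, Matrix.map_apply, Matrix.map_apply, smul_eq_mul,
          smul_eq_mul]
        ring
      rw [h2] at h1
      exact h1
    set Z : Matrix N N E := dA + G j * Am - (X.p i : E) • (Am * F) with hZ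
    have hZI : MAL.MI A i Z :=
      (hdAI.add (MAL.MI.mul (hG j) hAm)).sub ((MAL.MI.mul hAm hFI).smul hpO)
    have e5 : MAL.MD A i (M + 2 * n) (B * Z) := by
      have h1 : B * Z = (B * G j - dB - (X.p i : E) • (F * B)) * Am + (dB * Am + B * dA) +
          (X.p i : E) • (F * (B * Am - (X.p i : E) ^ n • 1) -
            (B * Am - (X.p i : E) ^ n • 1) * F) := by
        rw [hZ]
        simp only [mul_sub, sub_mul, mul_add, mul_smul_comm, smul_mul_assoc, smul_sub,
          mul_one, one_mul, mul_assoc]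
        abel
      rw [h1]
      exact ((e2.mul_right hAm).add e1).add
        (((MAL.MD.mul_left hFI e0).sub (e0.mul_right hFI)).smul hpO)
    have e6 : MAL.MD A i (M + n) ((X.p i : E) ^ n • Z) := by
      have h1 : (X.p i : E) ^ n • Z = Am * (B * Z) - (Am * B - (X.p i : E) ^ n • 1) * Z := by
        rw [sub_mul, smul_mul_assoc, one_mul, mul_assoc]
        abel
      rw [h1]
      refine MAL.MD.sub ?_ (e4.mul_right hZI)
      intro a b
      exact MAL.dv_mono A i (by omega) ((MAL.MD.mul_left hAm e5) a b)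
    intro a b
    have h1 := MAL.dv_cancel hA (M := M) (n := n) (x := Z a b) (e6 a b)
    simpa [hZ, hdA, Matrix.sub_apply, Matrix.add_apply, Matrix.smul_apply, Matrix.map_apply]
      using h1
  · intro a
    let xc : Matrix N Unit E := Matrix.of fun a _ => x a
    let yc : Matrix N Unit E := Matrix.of fun a _ => A.phi i (x a)
    have hxc : MAL.MI A i xc := fun a _ => hx a
    have e7 : MAL.MD A i (M + 2 * n) (B * xc - (X.p i : E) ^ n • yc) := by
      intro a b
      have := hvec a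
      simpa [Matrix.sub_apply, Matrix.mul_apply, xc, yc] using this
    have e8 : MAL.MD A i (M + n) ((X.p i : E) ^ n • (Am * yc - xc)) := by
      have h1 : (X.p i : E) ^ n • (Am * yc - xc) = (Am * B - (X.p i : E) ^ n • 1) * xc -
          Am * (B * xc - (X.p i : E) ^ n • yc) := by
        rw [Matrix.sub_mul, Matrix.mul_sub, Matrix.smul_mul, Matrix.one_mul, Matrix.mul_assoc,
          Matrix.mul_smul, smul_sub]
        abel
      rw [h1]
      refine (e4.mul_right hxc).sub ?_
      intro a b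
      exact MAL.dv_mono A i (by omega) ((MAL.MD.mul_left hAm e7) a b)
    have h1 := MAL.dv_cancel hA (M := M) (n := n) (x := (Am * yc - xc) a ()) (e8 a ())
    simpa [Matrix.sub_apply, Matrix.mul_apply, xc, yc] using h1

end Pool.CUBE
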