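import Pool.Agent.H38.CUBE.JJStmts

set_option autoImplicit false

open Polynomial

namespace Pool.CUBE

open Pool.CM Pool.H93.Cube

open Corner in
theorem riota_thm (h1 : RCStmt) (h2 : RAT0Stmt) (h3 : EVRStmt) (h4 : AIOTAStmt) :
    RIOTAStmt := by
  intro n E _ _ K K0 hF L l t g hL hg hD
  obtain ⟨radd, rC, rsh, -, -, -⟩ := h1 E
  have rzero : ∀ N : ℤ, Rc 0 N (0 : RatFunc E) = 0 := by
    intro N
    have := rC 0 N 0 0
    simpa using this
  have rneg : ∀ (N : ℤ) (r : RatFunc E), Rc 0 N (-r) = -Rc 0 N r := by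
    intro N r
    have := rC 0 N (-1) r
    simpa using this
  have rsub : ∀ (N : ℤ) (r s : RatFunc E), Rc 0 N (r - s) = Rc 0 N r - Rc 0 N s := by
    intro N r s
    rw [sub_eq_add_neg, radd, rneg, ← sub_eq_add_neg]
  have rsum : ∀ (N : ℤ) (s : Finset ℕ) (f : ℕ → RatFunc E),
      Rc 0 N (∑ k ∈ s, f k) = ∑ k ∈ s, Rc 0 N (f k) := by
    intro N s f
    classical
    induction s using Finset.induction_on with
    | empty => simpa using rzero N
    | insert a s ha ih => rw [Finset.sum_insert ha, Finset.sum_insert ha, radd, ih]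
  have rsh1 : ∀ (N : ℤ) (r : RatFunc E),
      Rc 0 N (affR 1 1 one_ne_zero r) = Rc 0 (N + 1) r := by
    intro N r
    have h := rsh 0 N 1 r
    simp only [Int.cast_one] at h
    exact h
  rw [← sub_eq_zero]
  refine h2 E _ ((L : ℤ) + l) fun N hN => ?_
  rw [rsub, radd, rsub, rsh1, rsum]
  rw [(h3 n E K0 L l t g N hL (by omega)).1]
  rw [(h3 (n + 1) E K (L + 1) l t _ (N + 1) (by omega) (by push_cast; omega)).1]
  rw [h4 n E K K0 hF L l t g N hL hg hD]
  have e1 : ∑ k ∈ Finset.range (t + 1), Rc 0 N (K.rr (L + 1) (MvPolynomial.pderiv 0 (K.G k) *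
      MvPolynomial.rename Fin.succ g) l (t - k)) =
      ∑ k ∈ Finset.range (t + 1), K.Ainf (L + 1) (MvPolynomial.pderiv 0 (K.G k) *
      MvPolynomial.rename Fin.succ g) l (t - k) N :=
    Finset.sum_congr rfl fun k _ =>
      (h3 (n + 1) E K (L + 1) l (t - k) _ N (by omega) (by push_cast; omega)).1
  rw [e1]
  by_cases hl : l = 0
  · rw [if_pos hl, if_pos hl, rzero]
    ring
  · rw [if_neg hl, if_neg hl]
    rw [(h3 (n + 1) E K (L + 1) (l - 1) t _ N (by omega) (by push_cast; omega)).1]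
    ring

end Pool.CUBE
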